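import Mathlib

/-!
Joint factorial moments and the multivariate Poisson distribution.
-/

set_option autoImplicit false

namespace Pool.Agent.U923.PP

open Finset Filter Topology

/-- truncated alternating sums of binomial coefficients -/
theorem alt_le (m J : ℕ) :
    |(if m = 0 then (1 : ℝ) else 0) - ∑ j ∈ range J, (-1 : ℝ) ^ j * (m.choose j : ℝ)| ≤ m.choose J := by
  rcases m with _ | m
  · rcases J with _ | J
    · simp
    · have h : ∑ j ∈ range (J + 1), (-1 : ℝ) ^ j * ((0 : ℕ).choose j : ℝ) = 1 := by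
        rw [sum_range_succ']
        simp
      rw [h]
      simp
  · rw [if_neg (Nat.succ_ne_zero m)]
    rcases J with _ | J
    · simp
    · have h : ∀ J : ℕ, ∑ j ∈ range (J + 1), (-1 : ℝ) ^ j * ((m + 1).choose j : ℝ) = (-1) ^ J * (m.choose J : ℝ) := by
        intro J
        induction J with
        | zero => simp
        | succ J ih =>
          rw [sum_range_succ, ih, Nat.choose_succ_succ]
          push_cast
          ring
      rw [h, zero_sub, abs_neg, abs_mul, abs_pow, abs_neg, abs_one, one_pow, one_mul, abs_of_nonneg (Nat.cast_nonneg _)]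
      rw [Nat.choose_succ_succ]
      push_cast
      linarith [(Nat.cast_nonneg (m.choose (J + 1)) : (0 : ℝ) ≤ (m.choose (J + 1) : ℝ))]

theorem choose_split (n k j : ℕ) : (k + j).choose k * n.choose (k + j) = n.choose k * (n - k).choose j := by
  rcases le_or_gt (k + j) n with h | h
  · have := Nat.choose_mul (n := n) (Nat.le_add_right k j)
    rw [Nat.add_sub_cancel_left] at this
    rw [mul_comm, this]
  · rw [Nat.choose_eq_zero_of_lt h, mul_zero]
    rcases le_or_gt k n with h' | h'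
    · rw [Nat.choose_eq_zero_of_lt (by omega : n - k < j), mul_zero]
    · rw [Nat.choose_eq_zero_of_lt h', zero_mul]

/-- the indicator of `n = k` and truncated sums of binomial coefficients -/
theorem bonf (n k J : ℕ) :
    |(if n = k then (1 : ℝ) else 0) - ∑ j ∈ range J, (-1 : ℝ) ^ j * ((k + j).choose k : ℝ) * (n.choose (k + j) : ℝ)| ≤
      ((k + J).choose k : ℝ) * (n.choose (k + J) : ℝ) := by
  have e1 : (if n = k then (1 : ℝ) else 0) = (n.choose k : ℝ) * (if n - k = 0 then (1 : ℝ) else 0) := by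
    rcases lt_trichotomy n k with h | h | h
    · rw [if_neg (by omega), Nat.choose_eq_zero_of_lt h]; simp
    · subst h; simp
    · rw [if_neg (by omega), if_neg (by omega), mul_zero]
  have e2 : ∀ j : ℕ, ((k + j).choose k : ℝ) * (n.choose (k + j) : ℝ) = (n.choose k : ℝ) * ((n - k).choose j : ℝ) := by
    intro j
    exact_mod_cast choose_split n k j
  have e3 : ∑ j ∈ range J, (-1 : ℝ) ^ j * ((k + j).choose k : ℝ) * (n.choose (k + j) : ℝ) =
      (n.choose k : ℝ) * ∑ j ∈ range J, (-1 : ℝ) ^ j * ((n - k).choose j : ℝ) := by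
    rw [mul_sum]
    apply sum_congr rfl
    intro j _
    rw [mul_assoc, e2]
    ring
  rw [e1, e3, e2, ← mul_sub, abs_mul, abs_of_nonneg (Nat.cast_nonneg _)]
  exact mul_le_mul_of_nonneg_left (alt_le _ _) (Nat.cast_nonneg _)

/-- products of approximations -/
theorem prod_approx {ι : Type*} (s : Finset ι) (A B R : ι → ℝ) (h0 : ∀ i ∈ s, 0 ≤ A i) (h1 : ∀ i ∈ s, A i ≤ 1)
    (h : ∀ i ∈ s, |A i - B i| ≤ R i) :
    (0 ≤ ∏ i ∈ s, A i ∧ ∏ i ∈ s, A i ≤ 1) ∧ |∏ i ∈ s, A i - ∏ i ∈ s, B i| ≤ ∏ i ∈ s, (1 + R i) - 1 := by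
  classical
  induction s using Finset.induction_on with
  | empty => simp
  | insert i s hi ih =>
    obtain ⟨⟨ih0, ih1⟩, ih2⟩ := ih (fun j hj => h0 j (mem_insert_of_mem hj)) (fun j hj => h1 j (mem_insert_of_mem hj))
      (fun j hj => h j (mem_insert_of_mem hj))
    have a0 := h0 i (mem_insert_self i s)
    have a1 := h1 i (mem_insert_self i s)
    have a2 := h i (mem_insert_self i s)
    rw [prod_insert hi, prod_insert hi, prod_insert hi]
    refine ⟨⟨mul_nonneg a0 ih0, mul_le_one₀ a1 ih0 ih1⟩, ?_⟩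
    set PA := ∏ x ∈ s, A x
    set PB := ∏ x ∈ s, B x
    set PR := ∏ x ∈ s, (1 + R x)
    have hR : 0 ≤ R i := (abs_nonneg _).trans a2
    have e : A i * PA - B i * PB = (A i - B i) * PA + B i * (PA - PB) := by ring
    rw [e]
    refine (abs_add_le _ _).trans ?_
    rw [abs_mul, abs_mul, abs_of_nonneg ih0]
    have b1 : |B i| ≤ 1 + R i := by
      have := abs_le.1 a2
      rw [abs_le]
      constructor <;> linarith
    have b2 : |A i - B i| * PA ≤ R i * 1 := mul_le_mul a2 ih1 ih0 hR
    have b3 : |B i| * |PA - PB| ≤ (1 + R i) * (PR - 1) := mul_le_mul b1 ih2 (abs_nonneg _) (by linarith)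
    linarith

variable {ι α : Type*} [Fintype ι] [DecidableEq ι]

/-- joint factorial moments (divided by factorials) -/
noncomputable def JM (Ω : Finset α) (N : ι → α → ℕ) (r : ι → ℕ) : ℝ :=
  (∑ a ∈ Ω, ∏ i, ((N i a).choose (r i) : ℝ)) / Ω.card

theorem lin_moments {Ω : ℕ → Finset α} {N : ℕ → ι → α → ℕ} {lam : ι → ℝ}
    (hM : ∀ r : ι → ℕ, Tendsto (fun n => JM (Ω n) (N n) r) atTop (𝓝 (∏ i, lam i ^ r i / (r i).factorial)))
    {κ : Type*} (s : Finset κ) (w : ι → κ → ℝ) (t : ι → κ → ℕ) :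
    Tendsto (fun n => (∑ a ∈ Ω n, ∏ i, ∑ j ∈ s, w i j * ((N n i a).choose (t i j) : ℝ)) / (Ω n).card) atTop
      (𝓝 (∏ i, ∑ j ∈ s, w i j * (lam i ^ t i j / (t i j).factorial))) := by
  classical
  have e : ∀ n, (∑ a ∈ Ω n, ∏ i, ∑ j ∈ s, w i j * ((N n i a).choose (t i j) : ℝ)) / (Ω n).card =
      ∑ g ∈ Fintype.piFinset fun _ : ι => s, (∏ i, w i (g i)) * JM (Ω n) (N n) fun i => t i (g i) := by
    intro n
    unfold JM
    have h1 : ∀ a ∈ Ω n, ∏ i, ∑ j ∈ s, w i j * ((N n i a).choose (t i j) : ℝ) =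
        ∑ g ∈ Fintype.piFinset fun _ : ι => s, (∏ i, w i (g i)) * ∏ i, ((N n i a).choose (t i (g i)) : ℝ) := by
      intro a _
      rw [prod_univ_sum]
      apply sum_congr rfl
      intro g _
      rw [prod_mul_distrib]
    rw [sum_congr rfl h1, sum_comm, sum_div]
    apply sum_congr rfl
    intro g _
    rw [← mul_sum, mul_div_assoc]
  have e2 : ∏ i, ∑ j ∈ s, w i j * (lam i ^ t i j / (t i j).factorial) =
      ∑ g ∈ Fintype.piFinset fun _ : ι => s, (∏ i, w i (g i)) * ∏ i, lam i ^ t i (g i) / (t i (g i)).factorial := by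
    rw [prod_univ_sum]
    apply sum_congr rfl
    intro g _
    rw [prod_mul_distrib]
  rw [e2]
  refine (tendsto_finsetSum _ fun g _ => (hM fun i => t i (g i)).const_mul _).congr fun n => (e n).symm

theorem main_sum (l : ℝ) (k J : ℕ) :
    ∑ j ∈ range J, ((-1 : ℝ) ^ j * ((k + j).choose k : ℝ)) * (l ^ (k + j) / (k + j).factorial) =
      l ^ k / k.factorial * ∑ j ∈ range J, (-l) ^ j / j.factorial := by
  rw [mul_sum]
  apply sum_congr rfl
  intro j _
  have h := Nat.add_choose_mul_factorial_mul_factorial k j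
  rw [← Nat.choose_symm_add] at h
  have h' : ((k + j).choose k : ℝ) * k.factorial * j.factorial = (k + j).factorial := by exact_mod_cast h
  have hk : (k.factorial : ℝ) ≠ 0 := by positivity
  have hj : (j.factorial : ℝ) ≠ 0 := by positivity
  have hkj : ((k + j).factorial : ℝ) ≠ 0 := by positivity
  have h2 : ((k + j).choose k : ℝ) = (k + j).factorial / (k.factorial * j.factorial) := by
    rw [← h']; field_simp
  rw [h2, neg_pow l j, pow_add]
  field_simp

/-- **Joint factorial moments determine the limit law**: independent Poisson variables. -/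
theorem poisson_limit {Ω : ℕ → Finset α} {N : ℕ → ι → α → ℕ} {lam : ι → ℝ}
    (hM : ∀ r : ι → ℕ, Tendsto (fun n => JM (Ω n) (N n) r) atTop (𝓝 (∏ i, lam i ^ r i / (r i).factorial))) (k : ι → ℕ) :
    Tendsto (fun n => (((Ω n).filter fun a => ∀ i, N n i a = k i).card : ℝ) / (Ω n).card) atTop
      (𝓝 (∏ i, Real.exp (-lam i) * lam i ^ k i / (k i).factorial)) := by
  classical
  -- the approximations
  set Q : ℕ → ℝ := fun J => ∏ i, ∑ j ∈ range J, ((-1 : ℝ) ^ j * ((k i + j).choose (k i) : ℝ)) *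
    (lam i ^ (k i + j) / (k i + j).factorial) with hQ
  set ρ : ℕ → ℝ := fun J => ∏ i, (1 + ((k i + J).choose (k i) : ℝ) * (lam i ^ (k i + J) / (k i + J).factorial)) - 1 with hρ
  have hQlim : Tendsto Q atTop (𝓝 (∏ i, Real.exp (-lam i) * lam i ^ k i / (k i).factorial)) := by
    apply tendsto_finsetProd
    intro i _
    have h1 : Tendsto (fun J : ℕ => ∑ j ∈ range J, (-lam i) ^ j / (j.factorial : ℝ)) atTop (𝓝 (Real.exp (-lam i))) := by
      have := (NormedSpace.expSeries_div_hasSum_exp (-lam i)).tendsto_sum_nat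
      rwa [← Real.exp_eq_exp_ℝ] at this
    have h2 := h1.const_mul (lam i ^ k i / (k i).factorial)
    have e : lam i ^ k i / (k i).factorial * Real.exp (-lam i) = Real.exp (-lam i) * lam i ^ k i / (k i).factorial := by ring
    rw [e] at h2
    exact h2.congr fun J => (main_sum (lam i) (k i) J).symm
  have hρlim : Tendsto ρ atTop (𝓝 0) := by
    have h0 : Tendsto (fun J : ℕ => ∏ i, (1 + ((k i + J).choose (k i) : ℝ) * (lam i ^ (k i + J) / (k i + J).factorial))) atTop
        (𝓝 (∏ _i : ι, (1 + (0 : ℝ)))) := by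
      apply tendsto_finsetProd
      intro i _
      refine tendsto_const_nhds.add ?_
      have h1 : Tendsto (fun J : ℕ => lam i ^ J / (J.factorial : ℝ)) atTop (𝓝 0) :=
        FloorSemiring.tendsto_pow_div_factorial_atTop (lam i)
      have h2 := h1.const_mul (lam i ^ k i / (k i).factorial)
      rw [mul_zero] at h2
      refine h2.congr fun J => ?_
      have h := Nat.add_choose_mul_factorial_mul_factorial (k i) J
      rw [← Nat.choose_symm_add] at h
      have h' : ((k i + J).choose (k i) : ℝ) * (k i).factorial * J.factorial = (k i + J).factorial := by exact_mod_cast h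
      have hk : ((k i).factorial : ℝ) ≠ 0 := by positivity
      have hj : (J.factorial : ℝ) ≠ 0 := by positivity
      have hkj : ((k i + J).factorial : ℝ) ≠ 0 := by positivity
      rw [← h', pow_add]
      have hc : ((k i + J).choose (k i) : ℝ) ≠ 0 := by
        have : 0 < (k i + J).choose (k i) := Nat.choose_pos (Nat.le_add_right _ _)
        positivity
      field_simp
    rw [Finset.prod_const] at h0
    have h3 := h0.sub_const 1
    simpa using h3
  -- the two limits
  have hmain : ∀ J : ℕ, Tendsto (fun n => (∑ a ∈ Ω n, ∏ i, ∑ j ∈ range J, ((-1 : ℝ) ^ j * ((k i + j).choose (k i) : ℝ)) *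
      ((N n i a).choose (k i + j) : ℝ)) / (Ω n).card) atTop (𝓝 (Q J)) := fun J =>
    lin_moments hM (range J) (fun i j => (-1 : ℝ) ^ j * ((k i + j).choose (k i) : ℝ)) (fun i j => k i + j)
  have herr : ∀ J : ℕ, Tendsto (fun n => (∑ a ∈ Ω n, ∏ i, (1 + ((k i + J).choose (k i) : ℝ) *
      ((N n i a).choose (k i + J) : ℝ))) / (Ω n).card) atTop (𝓝 (ρ J + 1)) := by
    intro J
    have h := lin_moments hM (Finset.univ : Finset (Fin 2)) (fun i j => if j = 0 then 1 else ((k i + J).choose (k i) : ℝ))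
      (fun i j => if j = 0 then 0 else k i + J)
    simp only [Fin.sum_univ_two, if_true, Nat.choose_zero_right, Nat.cast_one, one_mul, pow_zero,
      Nat.factorial_zero, div_one, if_neg (by decide : ¬ (1 : Fin 2) = 0)] at h
    have e : ρ J + 1 = ∏ i, (1 + ((k i + J).choose (k i) : ℝ) * (lam i ^ (k i + J) / (k i + J).factorial)) := by
      rw [hρ]; ring
    rw [e]
    exact h
  have hone : Tendsto (fun n => (∑ a ∈ Ω n, (1 : ℝ)) / (Ω n).card) atTop (𝓝 1) := by
    have h := hM fun _ => 0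
    unfold JM at h
    simpa using h
  rw [Metric.tendsto_atTop]
  intro ε hε
  obtain ⟨J, hJ1, hJ2⟩ : ∃ J : ℕ, |Q J - ∏ i, Real.exp (-lam i) * lam i ^ k i / (k i).factorial| < ε / 4 ∧ |ρ J| < ε / 4 := by
    have h1 := Metric.tendsto_atTop.1 hQlim (ε / 4) (by positivity)
    have h2 := Metric.tendsto_atTop.1 hρlim (ε / 4) (by positivity)
    obtain ⟨J1, hJ1⟩ := h1
    obtain ⟨J2, hJ2⟩ := h2
    refine ⟨max J1 J2, ?_, ?_⟩
    · have := hJ1 (max J1 J2) (le_max_left _ _)
      rwa [Real.dist_eq] at this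
    · have := hJ2 (max J1 J2) (le_max_right _ _)
      rwa [Real.dist_eq, sub_zero] at this
  obtain ⟨n1, h1⟩ := Metric.tendsto_atTop.1 (hmain J) (ε / 8) (by positivity)
  obtain ⟨n2, h2⟩ := Metric.tendsto_atTop.1 (herr J) (ε / 8) (by positivity)
  obtain ⟨n3, h3⟩ := Metric.tendsto_atTop.1 hone (ε / 8) (by positivity)
  refine ⟨max n1 (max n2 n3), fun n hn => ?_⟩
  have a1 := h1 n ((le_max_left _ _).trans hn)
  have a2 := h2 n (((le_max_left _ _).trans (le_max_right _ _)).trans hn)
  have a3 := h3 n (((le_max_right _ _).trans (le_max_right _ _)).trans hn)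
  rw [Real.dist_eq] at a1 a2 a3 ⊢
  set M1 := (∑ a ∈ Ω n, ∏ i, ∑ j ∈ range J, ((-1 : ℝ) ^ j * ((k i + j).choose (k i) : ℝ)) *
      ((N n i a).choose (k i + j) : ℝ)) / (Ω n).card with hM1
  set M2 := (∑ a ∈ Ω n, ∏ i, (1 + ((k i + J).choose (k i) : ℝ) * ((N n i a).choose (k i + J) : ℝ))) / (Ω n).card with hM2
  set M3 := (∑ a ∈ Ω n, (1 : ℝ)) / (Ω n).card with hM3
  have hcard : (((Ω n).filter fun a => ∀ i, N n i a = k i).card : ℝ) = ∑ a ∈ Ω n, ∏ i, (if N n i a = k i then (1 : ℝ) else 0) := by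
    rw [card_filter]
    push_cast
    apply sum_congr rfl
    intro a _
    by_cases hk : ∀ i, N n i a = k i
    · rw [if_pos hk, prod_congr rfl (fun i _ => if_pos (hk i)), prod_const_one]
    · rw [if_neg hk]
      push Not at hk
      obtain ⟨i, hi⟩ := hk
      exact (prod_eq_zero (mem_univ i) (if_neg hi)).symm
  have hdiff : |(((Ω n).filter fun a => ∀ i, N n i a = k i).card : ℝ) / (Ω n).card - M1| ≤ M2 - M3 := by
    rw [hcard, hM1, hM2, hM3, ← sub_div, ← sub_div, ← sum_sub_distrib, ← sum_sub_distrib, abs_div,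
      Nat.abs_cast]
    apply div_le_div_of_nonneg_right _ (Nat.cast_nonneg _)
    refine (abs_sum_le_sum_abs _ _).trans (sum_le_sum fun a _ => ?_)
    refine (prod_approx univ _ _ (fun i => ((k i + J).choose (k i) : ℝ) * ((N n i a).choose (k i + J) : ℝ))
      (fun i _ => by split_ifs <;> norm_num) (fun i _ => by split_ifs <;> norm_num) (fun i _ => ?_)).2
    exact bonf (N n i a) (k i) J
  have b1 := abs_lt.1 hJ1
  have b2 := abs_lt.1 hJ2
  have b3 := abs_le.1 hdiff
  have b4 := abs_lt.1 a1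
  have b5 := abs_lt.1 a2
  have b6 := abs_lt.1 a3
  rw [abs_lt]
  constructor <;> linarith

end Pool.Agent.U923.PP
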