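import Pool.Agent.U923.PP.Bonf

/-!
Elementary symmetric sums, and the factorial moments of the numbers of nearly independent events.
-/

set_option autoImplicit false

namespace Pool.Agent.U923.PP

open Finset Filter Topology

section es

variable {β : Type*} [DecidableEq β]

/-- elementary symmetric sums -/
noncomputable def es (P : Finset β) (q : β → ℝ) (r : ℕ) : ℝ := ∑ T ∈ P.powersetCard r, ∏ p ∈ T, q p

theorem es_zero (P : Finset β) (q : β → ℝ) : es P q 0 = 1 := by
  unfold es
  simp

theorem es_empty (q : β → ℝ) (r : ℕ) : es (∅ : Finset β) q (r + 1) = 0 := by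
  unfold es
  rw [powersetCard_eq_empty.2 (by simp)]
  simp

theorem es_nonneg (P : Finset β) {q : β → ℝ} (hq : ∀ p ∈ P, 0 ≤ q p) (r : ℕ) : 0 ≤ es P q r := by
  unfold es
  exact sum_nonneg fun T hT => prod_nonneg fun p hp => hq p ((mem_powersetCard.1 hT).1 hp)

theorem es_insert (P : Finset β) (q : β → ℝ) {i : β} (hi : i ∉ P) (r : ℕ) :
    es (insert i P) q (r + 1) = es P q (r + 1) + q i * es P q r := by
  unfold es
  rw [powersetCard_succ_insert hi, sum_union, sum_image, mul_sum]
  · congr 1
    apply sum_congr rfl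
    intro T hT
    rw [prod_insert (fun h => hi ((mem_powersetCard.1 hT).1 h))]
  · intro T hT T' hT' h
    have hT1 : i ∉ T := fun h => hi ((mem_powersetCard.1 hT).1 h)
    have hT2 : i ∉ T' := fun h => hi ((mem_powersetCard.1 hT').1 h)
    rw [← erase_insert hT1, ← erase_insert hT2, h]
  · rw [disjoint_left]
    intro T h1 h2
    rw [mem_image] at h2
    obtain ⟨T', -, rfl⟩ := h2
    exact hi ((mem_powersetCard.1 h1).1 (mem_insert_self _ _))

theorem es_erase (P : Finset β) (q : β → ℝ) {i : β} (hi : i ∈ P) (r : ℕ) :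
    es P q (r + 1) = es (P.erase i) q (r + 1) + q i * es (P.erase i) q r := by
  conv_lhs => rw [← insert_erase hi]
  exact es_insert _ _ (notMem_erase _ _) _

theorem es_mono_erase (P : Finset β) {q : β → ℝ} (hq : ∀ p ∈ P, 0 ≤ q p) (i : β) (r : ℕ) :
    es (P.erase i) q r ≤ es P q r := by
  unfold es
  apply sum_le_sum_of_subset_of_nonneg (powersetCard_mono (erase_subset _ _))
  intro T hT _
  exact prod_nonneg fun p hp => hq p ((mem_powersetCard.1 hT).1 hp)

theorem es_count (q : β → ℝ) (P : Finset β) : ∀ r : ℕ, ((r : ℝ) + 1) * es P q (r + 1) = ∑ p ∈ P, q p * es (P.erase p) q r := by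
  induction P using Finset.induction_on with
  | empty =>
    intro r
    rw [es_empty]
    simp
  | insert i P hi ih =>
    intro r
    rw [sum_insert hi, erase_insert hi, es_insert P q hi]
    have h1 : ∀ p ∈ P, (insert i P).erase p = insert i (P.erase p) := fun p hp =>
      erase_insert_of_ne (by rintro rfl; exact hi hp)
    rcases r with _ | r
    · have h2 : ∑ p ∈ P, q p * es ((insert i P).erase p) q 0 = ∑ p ∈ P, q p * es (P.erase p) q 0 := by
        apply sum_congr rfl
        intro p _
        rw [es_zero, es_zero]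
      rw [h2, ← ih 0, es_zero]
      push_cast
      ring
    · have h2 : ∑ p ∈ P, q p * es ((insert i P).erase p) q (r + 1) =
          ∑ p ∈ P, q p * es (P.erase p) q (r + 1) + q i * ∑ p ∈ P, q p * es (P.erase p) q r := by
        rw [mul_sum, ← sum_add_distrib]
        apply sum_congr rfl
        intro p hp
        rw [h1 p hp, es_insert (P.erase p) q (fun h => hi (mem_of_mem_erase h))]
        ring
      rw [h2, ← ih (r + 1), ← ih r]
      push_cast
      ring

theorem es_limit {P : ℕ → Finset β} {q : ℕ → β → ℝ} {m : ℕ → ℝ} {l : ℝ} (hq : ∀ n, ∀ p ∈ P n, 0 ≤ q n p)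
    (hm : ∀ n, ∀ p ∈ P n, q n p ≤ m n) (hm0 : Tendsto m atTop (𝓝 0))
    (hs : Tendsto (fun n => ∑ p ∈ P n, q n p) atTop (𝓝 l)) :
    ∀ r : ℕ, Tendsto (fun n => es (P n) (q n) r) atTop (𝓝 (l ^ r / r.factorial)) := by
  intro r
  induction r using Nat.strong_induction_on with
  | _ r ih =>
    rcases r with _ | r
    · simp only [es_zero, pow_zero, Nat.factorial_zero, Nat.cast_one, div_one]
      exact tendsto_const_nhds
    · have h1 := ih r (Nat.lt_succ_self r)
      -- the difference
      have hdiff : Tendsto (fun n => (∑ p ∈ P n, q n p) * es (P n) (q n) r - ((r : ℝ) + 1) * es (P n) (q n) (r + 1))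
          atTop (𝓝 0) := by
        rcases r with _ | r
        · refine tendsto_const_nhds.congr fun n => ?_
          have := es_count (q n) (P n) 0
          simp only [es_zero, mul_one] at this ⊢
          rw [this]
          ring
        · have h2 := ih r (by omega)
          have h3 : Tendsto (fun n => m n * ((∑ p ∈ P n, q n p) * es (P n) (q n) r)) atTop (𝓝 (0 * (l * (l ^ r / r.factorial)))) :=
            hm0.mul (hs.mul h2)
          rw [zero_mul] at h3
          refine squeeze_zero (fun n => ?_) (fun n => ?_) h3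
          · rw [es_count, sum_mul, ← sum_sub_distrib]
            apply sum_nonneg
            intro p hp
            rw [← mul_sub]
            exact mul_nonneg (hq n p hp) (sub_nonneg.2 (es_mono_erase _ (hq n) p _))
          · rw [es_count, sum_mul, ← sum_sub_distrib, sum_mul, mul_sum]
            apply sum_le_sum
            intro p hp
            rw [← mul_sub, es_erase (P n) (q n) hp]
            have b0 := hq n p hp
            have b1 := hm n p hp
            have b2 : es ((P n).erase p) (q n) r ≤ es (P n) (q n) r := es_mono_erase _ (hq n) p _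
            have b3 : 0 ≤ es ((P n).erase p) (q n) r := es_nonneg _ (fun p' hp' => hq n p' (mem_of_mem_erase hp')) _
            have e : q n p * (es ((P n).erase p) (q n) (r + 1) + q n p * es ((P n).erase p) (q n) r -
                es ((P n).erase p) (q n) (r + 1)) = q n p * (q n p * es ((P n).erase p) (q n) r) := by ring
            rw [e]
            have b4 : q n p * es ((P n).erase p) (q n) r ≤ m n * es (P n) (q n) r := mul_le_mul b1 b2 b3 (b0.trans b1)
            calc q n p * (q n p * es ((P n).erase p) (q n) r) ≤ q n p * (m n * es (P n) (q n) r) := mul_le_mul_of_nonneg_left b4 b0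
              _ = m n * (q n p * es (P n) (q n) r) := by ring
      have h4 := (hs.mul h1).sub hdiff
      have h5 := h4.const_mul (1 / ((r : ℝ) + 1))
      have e1 : 1 / ((r : ℝ) + 1) * (l * (l ^ r / r.factorial) - 0) = l ^ (r + 1) / (r + 1).factorial := by
        rw [Nat.factorial_succ]
        push_cast
        have : (r.factorial : ℝ) ≠ 0 := by positivity
        have : ((r : ℝ) + 1) ≠ 0 := by positivity
        field_simp
        ring
      rw [e1] at h5
      refine h5.congr fun n => ?_
      have : ((r : ℝ) + 1) ≠ 0 := by positivity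
      field_simp
      ring

end es

section events

variable {ι α : Type*} [Fintype ι] [DecidableEq ι]

/-- all the events in `T` occur -/
def AllW (W : ℕ → α → Prop) (T : Finset ℕ) (a : α) : Prop := ∀ p ∈ T, W p a

open Classical in
/-- the number of the points at which all the events in `T` occur -/
noncomputable def cnt (Ω : Finset α) (W : ℕ → α → Prop) (T : Finset ℕ) : ℝ := ∑ a ∈ Ω, if AllW W T a then (1 : ℝ) else 0

open Classical in
theorem cnt_eq (Ω : Finset α) (W : ℕ → α → Prop) (T : Finset ℕ) : cnt Ω W T = ((Ω.filter fun a => AllW W T a).card : ℝ) := by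
  unfold cnt
  rw [card_filter]
  push_cast
  rfl

open Classical in
/-- the number of the events which occur -/
noncomputable def nev (P : Finset ℕ) (W : ℕ → α → Prop) (a : α) : ℕ := (P.filter fun p => W p a).card

open Classical in
theorem choose_eq_sum {P : Finset ℕ} {W : ℕ → α → Prop} {a : α} (r : ℕ) :
    (((nev P W a).choose r : ℕ) : ℝ) = ∑ T ∈ P.powersetCard r, (if AllW W T a then (1 : ℝ) else 0) := by
  have h : (P.filter fun p => W p a).powersetCard r = (P.powersetCard r).filter fun T => AllW W T a := by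
    ext T
    rw [mem_powersetCard, mem_filter, mem_powersetCard]
    constructor
    · rintro ⟨h1, h2⟩
      exact ⟨⟨fun p hp => (mem_filter.1 (h1 hp)).1, h2⟩, fun p hp => (mem_filter.1 (h1 hp)).2⟩
    · rintro ⟨⟨h1, h2⟩, h3⟩
      exact ⟨fun p hp => mem_filter.2 ⟨h1 hp, h3 p hp⟩, h2⟩
  unfold nev
  rw [← card_powersetCard, h, card_filter]
  push_cast
  rfl

open Classical in
theorem moment_bound {Ω : Finset α} {P : ι → Finset ℕ} (hP : ∀ i j, i ≠ j → Disjoint (P i) (P j)) {W : ℕ → α → Prop}
    {q : ℕ → ℝ} {Z : ℝ} (hZ : 1 ≤ Z) (hcard : ∀ i, ((P i).card : ℝ) ≤ Z)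
    (h : ∀ T : Finset ℕ, (∀ p ∈ T, ∃ i, p ∈ P i) →
      |cnt Ω W T - Ω.card * ∏ p ∈ T, q p| ≤ Z ^ T.card) (r : ι → ℕ) (hΩ : 0 < Ω.card) :
    |JM Ω (fun i a => nev (P i) W a) r - ∏ i, es (P i) q (r i)| ≤ Z ^ (2 * ∑ i, r i) / Ω.card := by
  have hΩ' : (0 : ℝ) < Ω.card := by exact_mod_cast hΩ
  set G : Finset (ι → Finset ℕ) := Fintype.piFinset fun i => (P i).powersetCard (r i) with hG
  have hmem : ∀ g ∈ G, ∀ i, g i ⊆ P i ∧ (g i).card = r i := by
    intro g hg i
    exact mem_powersetCard.1 (Fintype.mem_piFinset.1 hg i)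
  have hdisj : ∀ g ∈ G, ((univ : Finset ι) : Set ι).PairwiseDisjoint g := by
    intro g hg i _ j _ hij
    exact Finset.disjoint_of_subset_left (hmem g hg i).1 (Finset.disjoint_of_subset_right (hmem g hg j).1 (hP i j hij))
  have e1 : JM Ω (fun i a => nev (P i) W a) r = (∑ g ∈ G, cnt Ω W (univ.biUnion g)) / Ω.card := by
    unfold JM
    congr 1
    have h1 : ∀ a ∈ Ω, ∏ i, (((nev (P i) W a).choose (r i) : ℕ) : ℝ) =
        ∑ g ∈ G, (if AllW W (univ.biUnion g) a then (1 : ℝ) else 0) := by
      intro a _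
      have h2 : ∀ i ∈ (univ : Finset ι), (((nev (P i) W a).choose (r i) : ℕ) : ℝ) =
          ∑ T ∈ (P i).powersetCard (r i), (if AllW W T a then (1 : ℝ) else 0) := fun i _ => choose_eq_sum (r i)
      rw [prod_congr rfl h2, prod_univ_sum]
      apply sum_congr rfl
      intro g _
      by_cases hg : AllW W (univ.biUnion g) a
      · have h3 : ∀ i ∈ (univ : Finset ι), (if AllW W (g i) a then (1 : ℝ) else 0) = 1 := fun i _ =>
          if_pos (show AllW W (g i) a from fun p hp => hg p (mem_biUnion.2 ⟨i, mem_univ i, hp⟩))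
        rw [if_pos hg, prod_congr rfl h3, prod_const_one]
      · rw [if_neg hg]
        have hg' : ∃ p ∈ univ.biUnion g, ¬ W p a := by
          by_contra hcon
          push Not at hcon
          exact hg hcon
        obtain ⟨p, hp, hW⟩ := hg'
        obtain ⟨i, -, hi⟩ := mem_biUnion.1 hp
        exact prod_eq_zero (mem_univ i) (if_neg (fun h => hW (h p hi)))
    rw [sum_congr rfl h1, sum_comm]
    rfl
  have e2 : ∏ i, es (P i) q (r i) = ∑ g ∈ G, ∏ p ∈ univ.biUnion g, q p := by
    unfold es
    rw [prod_univ_sum]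
    apply sum_congr rfl
    intro g hg
    rw [prod_biUnion (hdisj g hg)]
  have e3 : ∏ i, es (P i) q (r i) = (∑ g ∈ G, (Ω.card : ℝ) * ∏ p ∈ univ.biUnion g, q p) / Ω.card := by
    rw [← mul_sum, e2]
    field_simp
  rw [e1, e3, ← sub_div, abs_div, Nat.abs_cast, ← sum_sub_distrib]
  apply div_le_div_of_nonneg_right _ hΩ'.le
  refine (abs_sum_le_sum_abs _ _).trans ?_
  have hb : ∀ g ∈ G, |cnt Ω W (univ.biUnion g) - Ω.card * ∏ p ∈ univ.biUnion g, q p| ≤ Z ^ ∑ i, r i := by
    intro g hg
    have h1 := h (univ.biUnion g) (fun p hp => by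
      obtain ⟨i, -, hi⟩ := mem_biUnion.1 hp
      exact ⟨i, (hmem g hg i).1 hi⟩)
    refine h1.trans (pow_le_pow_right₀ hZ ?_)
    · refine card_biUnion_le.trans (le_of_eq ?_)
      apply sum_congr rfl
      intro i _
      exact (hmem g hg i).2
  refine (sum_le_sum hb).trans ?_
  rw [sum_const, nsmul_eq_mul]
  have hGc : (G.card : ℝ) ≤ Z ^ ∑ i, r i := by
    rw [hG, Fintype.card_piFinset, ← prod_pow_eq_pow_sum]
    push_cast
    apply prod_le_prod (fun i _ => Nat.cast_nonneg _)
    intro i _
    rw [card_powersetCard]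
    calc (((P i).card.choose (r i) : ℕ) : ℝ) ≤ (((P i).card ^ r i : ℕ) : ℝ) := by exact_mod_cast Nat.choose_le_pow _ _
      _ = ((P i).card : ℝ) ^ r i := by push_cast; rfl
      _ ≤ Z ^ r i := pow_le_pow_left₀ (Nat.cast_nonneg _) (hcard i) _
  calc (G.card : ℝ) * Z ^ ∑ i, r i ≤ Z ^ (∑ i, r i) * Z ^ ∑ i, r i := mul_le_mul_of_nonneg_right hGc (by positivity)
    _ = Z ^ (2 * ∑ i, r i) := by rw [← pow_add, two_mul]

open Classical in
/-- **Poisson limit for nearly independent rare events in disjoint groups.** -/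
theorem poisson_events {Ω : ℕ → Finset α} {P : ℕ → ι → Finset ℕ} (hP : ∀ n i j, i ≠ j → Disjoint (P n i) (P n j))
    {W : ℕ → ℕ → α → Prop} {q : ℕ → ℕ → ℝ} {Z m : ℕ → ℝ} {lam : ι → ℝ} (hZ : ∀ n, 1 ≤ Z n)
    (hcard : ∀ n i, ((P n i).card : ℝ) ≤ Z n) (hΩ : ∀ n, 0 < (Ω n).card)
    (h : ∀ n, ∀ T : Finset ℕ, (∀ p ∈ T, ∃ i, p ∈ P n i) →
      |cnt (Ω n) (W n) T - (Ω n).card * ∏ p ∈ T, q n p| ≤ Z n ^ T.card)
    (hq : ∀ n i, ∀ p ∈ P n i, 0 ≤ q n p) (hm : ∀ n i, ∀ p ∈ P n i, q n p ≤ m n) (hm0 : Tendsto m atTop (𝓝 0))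
    (hs : ∀ i, Tendsto (fun n => ∑ p ∈ P n i, q n p) atTop (𝓝 (lam i)))
    (hZΩ : ∀ R : ℕ, Tendsto (fun n => Z n ^ R / (Ω n).card) atTop (𝓝 0)) (k : ι → ℕ) :
    Tendsto (fun n => (((Ω n).filter fun a => ∀ i, nev (P n i) (W n) a = k i).card : ℝ) / (Ω n).card) atTop
      (𝓝 (∏ i, Real.exp (-lam i) * lam i ^ k i / (k i).factorial)) := by
  refine poisson_limit (N := fun n i a => nev (P n i) (W n) a) (fun r => ?_) k
  have h1 : Tendsto (fun n => ∏ i, es (P n i) (q n) (r i)) atTop (𝓝 (∏ i, lam i ^ r i / (r i).factorial)) :=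
    tendsto_finsetProd _ fun i _ => es_limit (P := fun n => P n i) (q := q) (m := m) (fun n => hq n i) (fun n => hm n i) hm0 (hs i) (r i)
  have h2 : Tendsto (fun n => JM (Ω n) (fun i a => nev (P n i) (W n) a) r - ∏ i, es (P n i) (q n) (r i)) atTop (𝓝 0) := by
    refine squeeze_zero_norm (fun n => ?_) (hZΩ (2 * ∑ i, r i))
    rw [Real.norm_eq_abs]
    exact moment_bound (hP n) (hZ n) (hcard n) (h n) r (hΩ n)
  have h3 := h2.add h1
  rw [zero_add] at h3
  exact h3.congr fun n => by ring

end events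

end Pool.Agent.U923.PP
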