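import Pool.Agent.U923.PP.Mom
import Pool.Agent.Helper92K9.WI.Cnt
import Pool.Agent.H305R2.MertensM

/-!
Wilson primes of random arithmetic progressions: near independence, and the sums of the probabilities.
-/

set_option autoImplicit false

namespace Pool.Agent.U923.PP

open Finset Filter Topology
open Pool.Agent.Helper92K9.WI (IsWilson isWilson_periodic card_local card_crt count_bound gg)

/-- the condition at `H + n` -/
def WH (b H : ℤ) (p n : ℕ) : Prop := IsWilson b (H + n) p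

theorem WH_per (b H : ℤ) {p M : ℕ} (h : p ^ 2 ∣ M) (n : ℕ) : WH b H p (n + M) ↔ WH b H p n := by
  obtain ⟨t, rfl⟩ := h
  unfold WH
  have := isWilson_periodic b p (H + n) t
  refine Iff.trans (iff_of_eq ?_) this
  congr 1
  push_cast
  ring

open Classical in
theorem WH_card (b H : ℤ) {p : ℕ} (hp : p.Prime) (hp2 : p ≠ 2) :
    ((range (p ^ 2)).filter (fun n => WH b H p n)).card = p - 1 := by
  have hp0 : (0 : ℤ) < (p : ℤ) ^ 2 := by have := hp.pos; positivity
  obtain ⟨H', hH'⟩ : ∃ H' : ℕ, (H' : ℤ) = H % (p : ℤ) ^ 2 := ⟨(H % (p : ℤ) ^ 2).toNat, Int.toNat_of_nonneg (Int.emod_nonneg _ hp0.ne')⟩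
  set Q : ℕ → Prop := fun m => IsWilson b (m : ℤ) p with hQ
  have hQper : Function.Periodic Q (p ^ 2) := fun m => propext (Pool.Agent.Helper92K9.WI.per b p m)
  have hWQ : ∀ n : ℕ, WH b H p n ↔ Q (H' + n) := by
    intro n
    unfold WH
    have h1 : H = (H' : ℤ) + (p : ℤ) ^ 2 * (H / (p : ℤ) ^ 2) := by
      rw [hH']
      exact (Int.emod_add_mul_ediv H ((p : ℤ) ^ 2)).symm
    have h2 : H + n = ((H' : ℤ) + n) + (p : ℤ) ^ 2 * (H / (p : ℤ) ^ 2) := by
      conv_lhs => rw [h1]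
      ring
    rw [h2, isWilson_periodic, hQ]
    push_cast
    rfl
  have h3 := Nat.filter_Ico_card_eq_of_periodic H' (p ^ 2) Q hQper
  have h4 : (range (p ^ 2)).filter (fun n => WH b H p n) = (range (p ^ 2)).filter fun n => Q (H' + n) := by
    apply filter_congr
    intro n _
    exact hWQ n
  have h5 : ((range (p ^ 2)).filter fun n => Q (H' + n)).card = ((Ico H' (H' + p ^ 2)).filter Q).card := by
    refine card_bij (fun n _ => H' + n) ?_ ?_ ?_
    · intro n hn
      rw [mem_filter, mem_range] at hn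
      rw [mem_filter, mem_Ico]
      exact ⟨⟨by omega, by omega⟩, hn.2⟩
    · intro n _ n' _ h
      omega
    · intro m hm
      rw [mem_filter, mem_Ico] at hm
      refine ⟨m - H', ?_, by omega⟩
      rw [mem_filter, mem_range]
      refine ⟨by omega, ?_⟩
      have : H' + (m - H') = m := by omega
      rw [this]
      exact hm.2
  rw [h4, h5, h3, Nat.count_eq_card_filter_range]
  exact card_local b hp hp2

open Classical in
/-- Chinese remainder theorem for several primes -/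
theorem WH_crt (b H : ℤ) (T : Finset ℕ) (hT : ∀ p ∈ T, p.Prime ∧ p ≠ 2) :
    ((range (∏ p ∈ T, p ^ 2)).filter (fun n => AllW (WH b H) T n)).card = ∏ p ∈ T, (p - 1) := by
  induction T using Finset.induction_on with
  | empty =>
    rw [prod_empty, prod_empty]
    rw [card_eq_one]
    refine ⟨0, ?_⟩
    ext n
    rw [mem_filter, mem_range, mem_singleton]
    constructor
    · rintro ⟨h, -⟩; omega
    · rintro rfl
      exact ⟨by omega, fun p hp => absurd hp (notMem_empty p)⟩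
  | insert q T hq ih =>
    have ih' := ih fun p hp => hT p (mem_insert_of_mem hp)
    have hq' := hT q (mem_insert_self q T)
    rw [prod_insert hq, prod_insert hq, ← ih', ← WH_card b H hq'.1 hq'.2]
    have hco : Nat.Coprime (q ^ 2) (∏ p ∈ T, p ^ 2) := by
      apply Nat.Coprime.prod_right
      intro p hp
      exact Nat.Coprime.pow 2 2 ((Nat.coprime_primes hq'.1 (hT p (mem_insert_of_mem hp)).1).2 (by rintro rfl; exact hq hp))
    have hpos : 0 < ∏ p ∈ T, p ^ 2 := prod_pos fun p hp => by have := (hT p (mem_insert_of_mem hp)).1.pos; positivity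
    have hperT : ∀ n, AllW (WH b H) T (n + ∏ p ∈ T, p ^ 2) ↔ AllW (WH b H) T n := by
      intro n
      unfold AllW
      constructor
      · intro h p hp
        exact (WH_per b H (dvd_prod_of_mem (fun p => p ^ 2) hp) n).1 (h p hp)
      · intro h p hp
        exact (WH_per b H (dvd_prod_of_mem (fun p => p ^ 2) hp) n).2 (h p hp)
    rw [← card_crt (fun n => WH b H q n) (fun n => AllW (WH b H) T n) (by have := hq'.1.pos; positivity) hpos hco
      (fun n => WH_per b H dvd_rfl n) hperT]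
    congr 1
    apply filter_congr
    intro n _
    unfold AllW
    constructor
    · intro h
      exact ⟨h q (mem_insert_self q T), fun p hp => h p (mem_insert_of_mem hp)⟩
    · rintro ⟨h1, h2⟩ p hp
      rcases mem_insert.1 hp with rfl | hp
      · exact h1
      · exact h2 p hp

theorem WH_cnt (b H : ℤ) (X : ℕ) {Z : ℝ} (T : Finset ℕ) (hT : ∀ p ∈ T, p.Prime ∧ p ≠ 2) (hZ : ∀ p ∈ T, (p : ℝ) ≤ Z) :
    |cnt (Icc 1 X) (WH b H) T - ((Icc 1 X : Finset ℕ).card : ℝ) * ∏ p ∈ T, gg p| ≤ Z ^ T.card := by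
  classical
  have hpos : 0 < ∏ p ∈ T, p ^ 2 := prod_pos fun p hp => by have := (hT p hp).1.pos; positivity
  have hperT : ∀ n, AllW (WH b H) T (n + ∏ p ∈ T, p ^ 2) ↔ AllW (WH b H) T n := by
    intro n
    unfold AllW
    constructor
    · intro h p hp
      exact (WH_per b H (dvd_prod_of_mem (fun p => p ^ 2) hp) n).1 (h p hp)
    · intro h p hp
      exact (WH_per b H (dvd_prod_of_mem (fun p => p ^ 2) hp) n).2 (h p hp)
  have h1 := count_bound (fun n => AllW (WH b H) T n) hpos hperT (WH_crt b H T hT) X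
  have e1 : cnt (Icc 1 X) (WH b H) T = (((Icc 1 X).filter fun n => AllW (WH b H) T n).card : ℝ) := by
    rw [cnt_eq]
  have hprod : ((∏ p ∈ T, (p - 1) : ℕ) : ℝ) = ∏ p ∈ T, ((p : ℝ) - 1) := by
    push_cast
    apply prod_congr rfl
    intro p hp
    rw [Nat.cast_sub (hT p hp).1.one_le, Nat.cast_one]
  have e2 : ((Icc 1 X : Finset ℕ).card : ℝ) * ∏ p ∈ T, gg p = ((∏ p ∈ T, (p - 1) : ℕ) : ℝ) * X / ((∏ p ∈ T, p ^ 2 : ℕ) : ℝ) := by
    rw [Nat.card_Icc, Nat.add_sub_cancel, hprod]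
    push_cast
    unfold gg
    rw [prod_div_distrib]
    ring
  rw [e1, e2]
  refine h1.trans ?_
  rw [hprod, ← prod_const]
  apply Finset.prod_le_prod
  · intro p hp
    have : (1 : ℝ) ≤ p := by exact_mod_cast (hT p hp).1.one_le
    linarith
  · intro p hp
    have := hZ p hp
    linarith

/-! ### the sums of the probabilities -/

/-- the prime numbers in `(u, v]` -/
noncomputable def PW (u v : ℝ) : Finset ℕ := (Ioc ⌊u⌋₊ ⌊v⌋₊).filter Nat.Prime

theorem mem_PW {u v : ℝ} (hu : 0 ≤ u) (hv : 0 ≤ v) {p : ℕ} : p ∈ PW u v ↔ p.Prime ∧ u < p ∧ (p : ℝ) ≤ v := by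
  unfold PW
  rw [mem_filter, mem_Ioc, Nat.floor_lt hu, Nat.le_floor_iff hv]
  tauto

theorem inv_sq_tail (D E : ℕ) (hD : 1 ≤ D) : ∑ d ∈ Ioc D E, (1 : ℝ) / (d : ℝ) ^ 2 ≤ 1 / D := by
  have hD0 : (0 : ℝ) < D := by exact_mod_cast hD
  have h : ∀ E : ℕ, D ≤ E → ∑ d ∈ Ioc D E, (1 : ℝ) / (d : ℝ) ^ 2 ≤ 1 / D - 1 / E := by
    intro E hE
    induction E, hE using Nat.le_induction with
    | base => simp
    | succ E hE ih =>
      have e : Ioc D (E + 1) = insert (E + 1) (Ioc D E) := by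
        ext d
        rw [mem_insert, mem_Ioc, mem_Ioc]
        omega
      rw [e, sum_insert (by rw [mem_Ioc]; omega)]
      have hE0 : (0 : ℝ) < E := by exact_mod_cast (by omega : 0 < E)
      have h2 : 1 / ((E + 1 : ℕ) : ℝ) ^ 2 ≤ 1 / E - 1 / ((E + 1 : ℕ) : ℝ) := by
        push_cast
        have e3 : 1 / (E : ℝ) - 1 / ((E : ℝ) + 1) = 1 / (E * (E + 1)) := by field_simp; ring
        rw [e3]
        apply one_div_le_one_div_of_le (by positivity)
        nlinarith
      linarith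
  rcases le_or_gt D E with hE | hE
  · have := h E hE
    have h2 : 0 ≤ 1 / (E : ℝ) := by positivity
    linarith
  · rw [Ioc_eq_empty_of_le hE.le, sum_empty]
    positivity

theorem log_floor_rpow {y : ℕ → ℝ} (hy : Tendsto y atTop atTop) {c : ℝ} (hc : 0 < c) :
    Tendsto (fun n => Real.log (Real.log (⌊y n ^ c⌋₊ : ℝ)) - Real.log (Real.log (y n))) atTop (𝓝 (Real.log c)) := by
  have hyc : Tendsto (fun n => y n ^ c) atTop atTop := (tendsto_rpow_atTop hc).comp hy
  have hfl : Tendsto (fun n => ((⌊y n ^ c⌋₊ : ℕ) : ℝ) / y n ^ c) atTop (𝓝 1) :=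
    (tendsto_nat_floor_div_atTop).comp hyc
  have hl1 : Tendsto (fun n => Real.log (((⌊y n ^ c⌋₊ : ℕ) : ℝ) / y n ^ c)) atTop (𝓝 0) := by
    have := (Real.continuousAt_log (one_ne_zero)).tendsto.comp hfl
    rwa [Real.log_one] at this
  have hly : Tendsto (fun n => Real.log (y n)) atTop atTop := Real.tendsto_log_atTop.comp hy
  have hratio : Tendsto (fun n => Real.log ((⌊y n ^ c⌋₊ : ℕ) : ℝ) / Real.log (y n)) atTop (𝓝 c) := by
    have h1 : Tendsto (fun n => Real.log (((⌊y n ^ c⌋₊ : ℕ) : ℝ) / y n ^ c) / Real.log (y n) + c) atTop (𝓝 (0 + c)) :=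
      (hl1.div_atTop hly).add_const c
    rw [zero_add] at h1
    refine h1.congr' ?_
    filter_upwards [hy.eventually_gt_atTop 1, hyc.eventually_ge_atTop 1] with n hn hn2
    have hy0 : 0 < y n := by linarith
    have hlog : 0 < Real.log (y n) := Real.log_pos hn
    have hf : (0 : ℝ) < ((⌊y n ^ c⌋₊ : ℕ) : ℝ) := by
      have : 1 ≤ ⌊y n ^ c⌋₊ := Nat.le_floor (by simpa using hn2)
      exact_mod_cast this
    rw [Real.log_div hf.ne' (by positivity), Real.log_rpow hy0]
    field_simp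
    ring
  have h2 := (Real.continuousAt_log hc.ne').tendsto.comp hratio
  refine h2.congr' ?_
  have hev : Tendsto (fun n => Real.log ((⌊y n ^ c⌋₊ : ℕ) : ℝ)) atTop atTop :=
    Real.tendsto_log_atTop.comp (tendsto_natCast_atTop_atTop.comp (tendsto_nat_floor_atTop.comp hyc))
  filter_upwards [hev.eventually_gt_atTop 0, hly.eventually_gt_atTop 0] with n hn1 hn2
  simp only [Function.comp_apply]
  rw [Real.log_div hn1.ne' hn2.ne']

/-- the sums of the probabilities -/
theorem sum_gg {y : ℕ → ℝ} (hy : Tendsto y atTop atTop) {s t : ℝ} (hs : 0 < s) (hst : s < t) :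
    Tendsto (fun n => ∑ p ∈ PW (y n ^ s) (y n ^ t), gg p) atTop (𝓝 (Real.log (t / s))) := by
  have ht : 0 < t := hs.trans hst
  obtain ⟨M, hM⟩ := Pool.Agent.H305R2.mertens_inv_tendsto
  set S : ℕ → ℝ := fun N => ∑ p ∈ (Finset.Icc 1 N).filter Nat.Prime, (1 : ℝ) / p with hS
  have hfl : ∀ {c : ℝ}, 0 < c → Tendsto (fun n => ⌊y n ^ c⌋₊) atTop atTop := fun hc =>
    tendsto_nat_floor_atTop.comp ((tendsto_rpow_atTop hc).comp hy)
  have h1 : Tendsto (fun n => S ⌊y n ^ t⌋₊ - S ⌊y n ^ s⌋₊) atTop (𝓝 (Real.log (t / s))) := by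
    have a1 := hM.comp (hfl ht)
    have a2 := hM.comp (hfl hs)
    have a3 := log_floor_rpow hy ht
    have a4 := log_floor_rpow hy hs
    have a5 := (a1.sub a2).add (a3.sub a4)
    have e : M - M + (Real.log t - Real.log s) = Real.log (t / s) := by
      rw [Real.log_div ht.ne' hs.ne']; ring
    rw [e] at a5
    refine a5.congr fun n => ?_
    simp only [Function.comp_apply, hS]
    ring
  -- the squares
  have h2 : Tendsto (fun n => ∑ p ∈ PW (y n ^ s) (y n ^ t), (1 : ℝ) / (p : ℝ) ^ 2) atTop (𝓝 0) := by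
    have a1 : Tendsto (fun n => 1 / ((⌊y n ^ s⌋₊ : ℕ) : ℝ)) atTop (𝓝 0) :=
      (tendsto_const_nhds (x := (1 : ℝ))).div_atTop (tendsto_natCast_atTop_atTop.comp (hfl hs))
    refine squeeze_zero' (Eventually.of_forall fun n => sum_nonneg fun p _ => by positivity) ?_ a1
    filter_upwards [(hfl hs).eventually_ge_atTop 1] with n hn
    refine le_trans ?_ (inv_sq_tail _ ⌊y n ^ t⌋₊ hn)
    exact sum_le_sum_of_subset_of_nonneg (filter_subset _ _) fun p _ _ => by positivity
  have h3 := h1.sub h2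
  rw [sub_zero] at h3
  refine h3.congr' ?_
  filter_upwards [hy.eventually_ge_atTop 1] with n hn
  have hle : ⌊y n ^ s⌋₊ ≤ ⌊y n ^ t⌋₊ := Nat.floor_le_floor (Real.rpow_le_rpow_of_exponent_le hn hst.le)
  have e1 : S ⌊y n ^ t⌋₊ - S ⌊y n ^ s⌋₊ = ∑ p ∈ PW (y n ^ s) (y n ^ t), (1 : ℝ) / p := by
    simp only [hS]
    rw [sub_eq_iff_eq_add, add_comm]
    unfold PW
    rw [← sum_union]
    · apply sum_congr _ fun _ _ => rfl
      ext p
      rw [mem_union, mem_filter, mem_filter, mem_filter, mem_Icc, mem_Icc, mem_Ioc]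
      constructor
      · rintro ⟨⟨a, b⟩, c⟩
        rcases le_or_gt p ⌊y n ^ s⌋₊ with h | h
        · exact Or.inl ⟨⟨a, h⟩, c⟩
        · exact Or.inr ⟨⟨h, b⟩, c⟩
      · rintro (⟨⟨a, b⟩, c⟩ | ⟨⟨a, b⟩, c⟩)
        · exact ⟨⟨a, b.trans hle⟩, c⟩
        · exact ⟨⟨c.one_le, b⟩, c⟩
    · rw [disjoint_left]
      intro p h h'
      rw [mem_filter, mem_Icc] at h
      rw [mem_filter, mem_Ioc] at h'
      omega
  rw [e1, ← sum_sub_distrib]
  apply sum_congr rfl
  intro p hp
  have hp0 : (p : ℝ) ≠ 0 := by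
    have := (mem_filter.1 hp).2.pos
    positivity
  unfold gg
  field_simp

theorem gg_nonneg {p : ℕ} (hp : p.Prime) : 0 ≤ gg p := by
  unfold gg
  have : (1 : ℝ) ≤ p := by exact_mod_cast hp.one_le
  exact div_nonneg (by linarith) (by positivity)

theorem gg_le {p : ℕ} (hp : p.Prime) {u : ℝ} (hu : 0 < u) (hup : u < p) : gg p ≤ 1 / u := by
  unfold gg
  have : (1 : ℝ) ≤ p := by exact_mod_cast hp.one_le
  rw [div_le_div_iff₀ (by positivity) hu]
  nlinarith

end Pool.Agent.U923.PP
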